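import Pool.Agent.F5H.StmtsA

set_option autoImplicit false

/-!
# Squad F5H, row A_CHK: Lipschitz weight of the forms
-/

open MeasureTheory Filter Topology

namespace Pool.Agent.F5H.H41

open Pool.Agent.BTL Pool.Agent.F5S Pool.Agent.F5H

theorem ccl_bd (u : ℝ) : 0 ≤ cl u ∧ cl u ≤ 1 := by
  unfold cl
  exact ⟨le_max_left _ _, max_le zero_le_one (min_le_left _ _)⟩

theorem ccl_lip (u v : ℝ) : |cl u - cl v| ≤ |u - v| := by
  unfold cl
  rw [max_comm 0 (min 1 u), max_comm 0 (min 1 v)]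
  refine (abs_max_sub_max_le_abs _ _ _).trans ?_
  rw [min_comm 1 u, min_comm 1 v]
  have h := abs_min_sub_min_le_max u 1 v 1
  rw [sub_self, abs_zero] at h
  exact h.trans (max_le le_rfl (abs_nonneg _))

theorem ccl_one {u : ℝ} (h : 1 ≤ u) : cl u = 1 := by
  unfold cl
  rw [min_eq_left h]
  exact max_eq_right zero_le_one

theorem ccl_pos {u : ℝ} (h : cl u ≠ 0) : 0 < u := by
  by_contra h1
  push Not at h1
  refine h ?_
  unfold cl
  exact max_eq_left ((min_le_right _ _).trans h1)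

/-- the root -/
theorem root_sq (A : ℝ × ℝ × ℝ) :
    Real.sqrt (((A.1 - A.2.2) / 2) ^ 2 + A.2.1 ^ 2) ^ 2 =
      ((A.1 - A.2.2) / 2) ^ 2 + A.2.1 ^ 2 := Real.sq_sqrt (by positivity)

/-- a nonnegative form has nonnegative diagonal and determinant -/
theorem psd_of_nonneg {a b c : ℝ}
    (h : ∀ x y : ℝ, 0 ≤ a * x ^ 2 + 2 * b * x * y + c * y ^ 2) :
    0 ≤ a ∧ 0 ≤ c ∧ b ^ 2 ≤ a * c := by
  have ha : 0 ≤ a := by have := h 1 0; nlinarith
  have hc : 0 ≤ c := by have := h 0 1; nlinarith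
  refine ⟨ha, hc, ?_⟩
  have hd : discrim a (2 * b) c ≤ 0 := by
    apply discrim_le_zero
    intro x
    have := h x 1
    nlinarith
  unfold discrim at hd
  nlinarith

/-- `√` bound -/
theorem root_le {u v w : ℝ} (hw : 0 ≤ w) (h : u ^ 2 + v ^ 2 ≤ w ^ 2) :
    Real.sqrt (u ^ 2 + v ^ 2) ≤ w := by
  rw [Real.sqrt_le_left hw]
  exact h

theorem lmin_ge {M : ℝ} {A : ℝ × ℝ × ℝ} (hA : A ∈ KM M) : 1 / M ≤ lmin A := by
  obtain ⟨ha, hc, hb⟩ := psd_of_nonneg (a := A.1 - 1 / M) (b := A.2.1) (c := A.2.2 - 1 / M) (by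
    intro x y
    have h := (hA (x, y)).1
    simp only [qf, nr] at h
    have e : (x ^ 2 + y ^ 2) / M = 1 / M * (x ^ 2 + y ^ 2) := by ring
    rw [e] at h
    nlinarith)
  unfold lmin
  have h : Real.sqrt (((A.1 - A.2.2) / 2) ^ 2 + A.2.1 ^ 2) ≤ (A.1 + A.2.2) / 2 - 1 / M := by
    apply root_le
    · linarith
    · nlinarith
  linarith

theorem lmax_le {M : ℝ} {A : ℝ × ℝ × ℝ} (hA : A ∈ KM M) : lmax A ≤ M := by
  obtain ⟨ha, hc, hb⟩ := psd_of_nonneg (a := M - A.1) (b := -A.2.1) (c := M - A.2.2) (by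
    intro x y
    have h := (hA (x, y)).2
    simp only [qf, nr] at h
    nlinarith)
  unfold lmax
  have h : Real.sqrt (((A.1 - A.2.2) / 2) ^ 2 + A.2.1 ^ 2) ≤ M - (A.1 + A.2.2) / 2 := by
    apply root_le
    · linarith
    · nlinarith
  linarith

/-- two nonnegative numbers with product a square dominate the mixed term -/
theorem form_nonneg {a b c : ℝ} (ha : 0 ≤ a) (hc : 0 ≤ c) (hb : b ^ 2 = a * c) (x y : ℝ) :
    0 ≤ a * x ^ 2 + 2 * b * x * y + c * y ^ 2 := by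
  rcases ha.eq_or_lt with h0 | h0
  · have hb0 : b = 0 := by
      rw [← h0, zero_mul] at hb
      exact pow_eq_zero_iff (two_ne_zero) |>.1 hb
    rw [← h0, hb0]
    nlinarith [mul_nonneg hc (sq_nonneg y)]
  · have h1 : 0 ≤ a * (a * x ^ 2 + 2 * b * x * y + c * y ^ 2) := by
      have e : a * (a * x ^ 2 + 2 * b * x * y + c * y ^ 2) = (a * x + b * y) ^ 2 := by
        linear_combination (-y ^ 2) * hb
      rw [e]
      positivity
    exact nonneg_of_mul_nonneg_right h1 h0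

theorem root_ge (A : ℝ × ℝ × ℝ) :
    |(A.1 - A.2.2) / 2| ≤ Real.sqrt (((A.1 - A.2.2) / 2) ^ 2 + A.2.1 ^ 2) := by
  rw [← Real.sqrt_sq_eq_abs]
  exact Real.sqrt_le_sqrt (by nlinarith [sq_nonneg A.2.1])

theorem lmin_nr (A : ℝ × ℝ × ℝ) (x : ℝ × ℝ) : lmin A * nr x ≤ qf A x := by
  have h := root_ge A
  have hs := root_sq A
  rw [abs_le] at h
  unfold lmin
  set r := Real.sqrt (((A.1 - A.2.2) / 2) ^ 2 + A.2.1 ^ 2) with hr
  have := form_nonneg (a := A.1 - ((A.1 + A.2.2) / 2 - r)) (b := A.2.1)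
    (c := A.2.2 - ((A.1 + A.2.2) / 2 - r)) (by linarith) (by linarith) (by nlinarith) x.1 x.2
  simp only [qf, nr]
  nlinarith

theorem qf_lmax (A : ℝ × ℝ × ℝ) (x : ℝ × ℝ) : qf A x ≤ lmax A * nr x := by
  have h := root_ge A
  have hs := root_sq A
  rw [abs_le] at h
  unfold lmax
  set r := Real.sqrt (((A.1 - A.2.2) / 2) ^ 2 + A.2.1 ^ 2) with hr
  have := form_nonneg (a := ((A.1 + A.2.2) / 2 + r) - A.1) (b := -A.2.1)
    (c := ((A.1 + A.2.2) / 2 + r) - A.2.2) (by linarith) (by linarith) (by nlinarith) x.1 x.2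
  simp only [qf, nr]
  nlinarith

/-- `√(u² + v²)` is Lipschitz -/
theorem root_lip (u v u' v' : ℝ) :
    |Real.sqrt (u ^ 2 + v ^ 2) - Real.sqrt (u' ^ 2 + v' ^ 2)| ≤ |u - u'| + |v - v'| := by
  have key : ∀ u v u' v' : ℝ,
      Real.sqrt (u ^ 2 + v ^ 2) ≤ Real.sqrt (u' ^ 2 + v' ^ 2) + (|u - u'| + |v - v'|) := by
    intro u v u' v'
    have h0 := Real.sqrt_nonneg (u' ^ 2 + v' ^ 2)
    have h1 := Real.sq_sqrt (show 0 ≤ u' ^ 2 + v' ^ 2 by positivity)
    have ha := abs_nonneg (u - u')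
    have hb := abs_nonneg (v - v')
    apply root_le (by linarith)
    set s := Real.sqrt (u' ^ 2 + v' ^ 2)
    have hu' : |u'| ≤ s := by
      rw [← Real.sqrt_sq_eq_abs]
      exact Real.sqrt_le_sqrt (by nlinarith [sq_nonneg v'])
    have hv' : |v'| ≤ s := by
      rw [← Real.sqrt_sq_eq_abs]
      exact Real.sqrt_le_sqrt (by nlinarith [sq_nonneg u'])
    have e1 : u ^ 2 ≤ u' ^ 2 + 2 * |u'| * |u - u'| + |u - u'| ^ 2 := by
      have : u = u' + (u - u') := by ring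
      have h2 : u' * (u - u') ≤ |u'| * |u - u'| := by
        rw [← abs_mul]; exact le_abs_self _
      nlinarith [sq_abs (u - u')]
    have e2 : v ^ 2 ≤ v' ^ 2 + 2 * |v'| * |v - v'| + |v - v'| ^ 2 := by
      have h2 : v' * (v - v') ≤ |v'| * |v - v'| := by
        rw [← abs_mul]; exact le_abs_self _
      nlinarith [sq_abs (v - v')]
    nlinarith [mul_le_mul_of_nonneg_right hu' ha, mul_le_mul_of_nonneg_right hv' hb,
      mul_nonneg ha hb]
  rw [abs_le]
  constructor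
  · have := key u' v' u v
    rw [abs_sub_comm u' u, abs_sub_comm v' v] at this
    linarith
  · have := key u v u' v'
    linarith

theorem comp_le (A A' : ℝ × ℝ × ℝ) :
    |A.1 - A'.1| ≤ ‖A - A'‖ ∧ |A.2.1 - A'.2.1| ≤ ‖A - A'‖ ∧ |A.2.2 - A'.2.2| ≤ ‖A - A'‖ := by
  have h1 : ‖(A - A').1‖ ≤ ‖A - A'‖ := norm_fst_le _
  have h2 : ‖(A - A').2‖ ≤ ‖A - A'‖ := norm_snd_le _
  have h3 : ‖(A - A').2.1‖ ≤ ‖(A - A').2‖ := norm_fst_le _
  have h4 : ‖(A - A').2.2‖ ≤ ‖(A - A').2‖ := norm_snd_le _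
  exact ⟨h1, h3.trans h2, h4.trans h2⟩

theorem rootA_lip (A A' : ℝ × ℝ × ℝ) :
    |Real.sqrt (((A.1 - A.2.2) / 2) ^ 2 + A.2.1 ^ 2) -
      Real.sqrt (((A'.1 - A'.2.2) / 2) ^ 2 + A'.2.1 ^ 2)| ≤ 2 * ‖A - A'‖ := by
  obtain ⟨h1, h2, h3⟩ := comp_le A A'
  refine (root_lip _ _ _ _).trans ?_
  have : |(A.1 - A.2.2) / 2 - (A'.1 - A'.2.2) / 2| ≤ ‖A - A'‖ := by
    rw [abs_le] at h1 h3 ⊢
    constructor <;> linarith [h1.1, h1.2, h3.1, h3.2]
  linarith

theorem lmin_lip (A A' : ℝ × ℝ × ℝ) : |lmin A - lmin A'| ≤ 3 * ‖A - A'‖ := by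
  obtain ⟨h1, h2, h3⟩ := comp_le A A'
  have h4 := rootA_lip A A'
  unfold lmin
  rw [abs_le] at h1 h3 h4 ⊢
  constructor <;> linarith [h1.1, h1.2, h3.1, h3.2, h4.1, h4.2]

theorem lmax_lip (A A' : ℝ × ℝ × ℝ) : |lmax A - lmax A'| ≤ 3 * ‖A - A'‖ := by
  obtain ⟨h1, h2, h3⟩ := comp_le A A'
  have h4 := rootA_lip A A'
  unfold lmax
  rw [abs_le] at h1 h3 h4 ⊢
  constructor <;> linarith [h1.1, h1.2, h3.1, h3.2, h4.1, h4.2]

theorem chk : CHKStmt := by
  intro M hM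
  have hM0 : 0 < M := by linarith
  refine ⟨?_, ?_, ?_, ?_⟩
  · intro A
    unfold chK
    exact ⟨mul_nonneg (ccl_bd _).1 (ccl_bd _).1,
      mul_le_one₀ (ccl_bd _).2 (ccl_bd _).1 (ccl_bd _).2⟩
  · intro A hA
    have h1 := lmin_ge hA
    have h2 := lmax_le hA
    unfold chK
    rw [ccl_one, ccl_one, one_mul]
    · have : lmax A / M ≤ 1 := (div_le_one hM0).2 h2
      linarith
    · have : 2 * M * (1 / M) ≤ 2 * M * lmin A := mul_le_mul_of_nonneg_left h1 (by positivity)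
      have e : 2 * M * (1 / M) = 2 := by field_simp
      linarith
  · intro A h
    unfold chK at h
    have h1 := ccl_pos (left_ne_zero_of_mul h)
    have h2 := ccl_pos (right_ne_zero_of_mul h)
    have h3 : 1 / (2 * M) ≤ lmin A := by
      rw [div_le_iff₀ (by positivity)]
      nlinarith
    have h4 : lmax A ≤ 2 * M := by
      have : lmax A / M < 2 := by linarith
      rw [div_lt_iff₀ hM0] at this
      exact this.le
    intro x
    have hn := nr_nonneg x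
    constructor
    · refine le_trans ?_ (lmin_nr A x)
      have := mul_le_mul_of_nonneg_right h3 hn
      calc nr x / (2 * M) = 1 / (2 * M) * nr x := by ring
        _ ≤ _ := this
    · exact (qf_lmax A x).trans (mul_le_mul_of_nonneg_right h4 hn)
  · intro A A'
    unfold chK
    have b1 := ccl_bd (2 * M * lmin A - 1)
    have b2 := ccl_bd (2 - lmax A / M)
    have b3 := ccl_bd (2 * M * lmin A' - 1)
    have b4 := ccl_bd (2 - lmax A' / M)
    have l1 := ccl_lip (2 * M * lmin A - 1) (2 * M * lmin A' - 1)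
    have l2 := ccl_lip (2 - lmax A / M) (2 - lmax A' / M)
    have m1 : |2 * M * lmin A - 1 - (2 * M * lmin A' - 1)| ≤ 6 * M * ‖A - A'‖ := by
      have e : 2 * M * lmin A - 1 - (2 * M * lmin A' - 1) = 2 * M * (lmin A - lmin A') := by ring
      rw [e, abs_mul, abs_of_pos (by positivity : 0 < 2 * M)]
      have := mul_le_mul_of_nonneg_left (lmin_lip A A') (by positivity : 0 ≤ 2 * M)
      linarith
    have m2 : |2 - lmax A / M - (2 - lmax A' / M)| ≤ 3 * M * ‖A - A'‖ := by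
      have e : 2 - lmax A / M - (2 - lmax A' / M) = -((lmax A - lmax A') / M) := by ring
      rw [e, abs_neg, abs_div, abs_of_pos hM0, div_le_iff₀ hM0]
      have h5 := lmax_lip A A'
      have h6 := norm_nonneg (A - A')
      have h7 : 3 * ‖A - A'‖ * 1 ≤ 3 * ‖A - A'‖ * (M * M) := by
        apply mul_le_mul_of_nonneg_left _ (by positivity)
        nlinarith
      nlinarith
    have e : cl (2 * M * lmin A - 1) * cl (2 - lmax A / M) -
        cl (2 * M * lmin A' - 1) * cl (2 - lmax A' / M) =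
        (cl (2 * M * lmin A - 1) - cl (2 * M * lmin A' - 1)) * cl (2 - lmax A / M) +
        cl (2 * M * lmin A' - 1) * (cl (2 - lmax A / M) - cl (2 - lmax A' / M)) := by ring
    rw [e]
    refine (abs_add_le _ _).trans ?_
    rw [abs_mul, abs_mul, abs_of_nonneg b2.1, abs_of_nonneg b3.1]
    have n1 : |cl (2 * M * lmin A - 1) - cl (2 * M * lmin A' - 1)| * cl (2 - lmax A / M) ≤
        6 * M * ‖A - A'‖ * 1 :=
      mul_le_mul (l1.trans m1) b2.2 b2.1 (by positivity)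
    have n2 : cl (2 * M * lmin A' - 1) * |cl (2 - lmax A / M) - cl (2 - lmax A' / M)| ≤
        1 * (3 * M * ‖A - A'‖) :=
      mul_le_mul b3.2 (l2.trans m2) (abs_nonneg _) zero_le_one
    have h6 : 0 ≤ M * ‖A - A'‖ := by positivity
    linarith

end Pool.Agent.F5H.H41
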