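import Pool.Agent.F5H.StmtsA

set_option autoImplicit false

/-!
# Squad F5H, row A_CLF: the cells
-/

open MeasureTheory Filter Topology

namespace Pool.Agent.F5H.H41

open Pool.Agent.BTL Pool.Agent.F5S Pool.Agent.F5H

theorem ctn_nonneg (u : ℝ) : 0 ≤ tn u := le_max_left _ _

theorem ctn_le_one (u : ℝ) : tn u ≤ 1 := max_le zero_le_one (by linarith [abs_nonneg u])

theorem ctn_cont : Continuous tn := by
  unfold tn
  exact continuous_const.max (continuous_const.sub continuous_abs)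

theorem ctn_abs {u : ℝ} (h : tn u ≠ 0) : |u| < 1 := by
  by_contra h2
  push Not at h2
  exact h (max_eq_left (by linarith))

theorem ph_bd (z : ℝ × ℝ) : 0 ≤ ph z ∧ ph z ≤ 1 := by
  unfold ph
  exact ⟨mul_nonneg (ctn_nonneg _) (ctn_nonneg _),
    mul_le_one₀ (ctn_le_one _) (ctn_nonneg _) (ctn_le_one _)⟩

theorem ph_cont : Continuous ph := by
  unfold ph
  exact (ctn_cont.comp continuous_fst).mul (ctn_cont.comp continuous_snd)

theorem ph_supp {L : ℝ} (hL : 0 < L) {z : ℝ × ℝ} (h : ph (L⁻¹ • z) ≠ 0) : ‖z‖ ≤ L := by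
  have h1 : tn (L⁻¹ * z.1) ≠ 0 := fun h0 => h (by
    show tn (L⁻¹ * z.1) * tn (L⁻¹ * z.2) = 0
    rw [h0, zero_mul])
  have h2 : tn (L⁻¹ * z.2) ≠ 0 := fun h0 => h (by
    show tn (L⁻¹ * z.1) * tn (L⁻¹ * z.2) = 0
    rw [h0, mul_zero])
  have k : ∀ u : ℝ, tn (L⁻¹ * u) ≠ 0 → |u| ≤ L := by
    intro u hu
    have h3 := ctn_abs hu
    rw [abs_mul, abs_of_pos (inv_pos.2 hL), inv_mul_lt_iff₀ hL, mul_one] at h3
    exact h3.le
  rw [Prod.norm_def, Real.norm_eq_abs, Real.norm_eq_abs]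
  exact max_le (k _ h1) (k _ h2)

theorem clf : CLFStmt := by
  intro L hL
  refine ⟨?_, ?_, ?_, fun c x => rfl⟩
  · intro c x
    unfold cl6
    refine ⟨mul_nonneg (ph_bd _).1 (mul_nonneg (ph_bd _).1 (ph_bd _).1), ?_⟩
    exact mul_le_one₀ (ph_bd _).2 (mul_nonneg (ph_bd _).1 (ph_bd _).1)
      (mul_le_one₀ (ph_bd _).2 (ph_bd _).1 (ph_bd _).2)
  · unfold cl6
    refine (ph_cont.comp ?_).mul ((ph_cont.comp ?_).mul (ph_cont.comp ?_)) <;> fun_prop
  · intro c x h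
    unfold cl6 at h
    have h1 := left_ne_zero_of_mul h
    have h2 := left_ne_zero_of_mul (right_ne_zero_of_mul h)
    have h3 := right_ne_zero_of_mul (right_ne_zero_of_mul h)
    have e1 := ph_supp hL h1
    have e2 := ph_supp hL h2
    have e3 := ph_supp hL h3
    rw [Prod.norm_def]
    refine max_le e1 ?_
    rw [Prod.norm_def]
    exact max_le e2 e3

end Pool.Agent.F5H.H41
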